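import Pool.Agent.P.MP_a0dde7_co.Brown
import Pool.Agent.P.MP_a0dde7_co.Upper

set_option autoImplicit false

namespace Pool.Agent.Results.MP_a0dde7_co.QuarterSquare
open Pool.Agent.P.MP_a0dde7_co

/-- With minimum degree at least `k / 2`, the maximum degree that forces all trees with `k` edges
and diameter at most four is `(1 / 4 + o(1)) k ^ 2`. -/
theorem result : IsGLB {c : ℝ | ∃ k₀ : ℕ, ∀ k : ℕ, k₀ ≤ k →
    ∀ (V : Type) [Fintype V] [Nonempty V] (G : SimpleGraph V) [DecidableRel G.Adj],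
      (k : ℝ) / 2 ≤ (G.minDegree : ℝ) → c * (k : ℝ) ^ 2 ≤ (G.maxDegree : ℝ) →
      ∀ T : SimpleGraph (Fin (k + 1)), T.IsTree → (∀ x y, T.dist x y ≤ 4) → T.IsContained G}
    (1 / 4) := by
  constructor
  · rintro c ⟨k₀, h⟩
    by_contra hc
    have hε : 0 < 1 / 4 - c := sub_pos.2 (not_le.1 hc)
    obtain ⟨N, hN⟩ := exists_nat_ge (1 / (1 / 4 - c))
    obtain ⟨p, hp, hpp⟩ := Nat.exists_infinite_primes (k₀ + N + 3)
    obtain ⟨V, _, _, G, _, h1, h2, T, hT, hd, hn⟩ := lower p hpp (by omega)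
    refine hn (h (2 * p + 4) (by omega) V G ?_ ?_ T hT hd)
    · have : ((p + 2 : ℕ) : ℝ) ≤ G.minDegree := by exact_mod_cast h1
      push_cast at this ⊢
      linarith
    · have h3 : ((p ^ 2 + p + 1 : ℕ) : ℝ) ≤ G.maxDegree := by exact_mod_cast h2
      have h4 : (N : ℝ) ≤ p := by exact_mod_cast (by omega : N ≤ p)
      have h5 : 1 ≤ (1 / 4 - c) * p := by
        rw [div_le_iff₀ hε] at hN
        nlinarith
      have h6 : (0 : ℝ) ≤ p := Nat.cast_nonneg p
      push_cast at h3 ⊢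
      nlinarith [mul_nonneg hε.le h6, mul_le_mul_of_nonneg_right h5 h6]
  · intro b hb
    refine le_of_forall_gt_imp_ge_of_dense fun c hc => hb ?_
    have hε : 0 < c - 1 / 4 := sub_pos.2 hc
    obtain ⟨N, hN⟩ := exists_nat_ge (32 / (c - 1 / 4))
    refine ⟨N + 1, fun k hk V _ _ G _ h1 h2 T hT hd => ?_⟩
    classical
    have h3 : k ≤ 2 * G.minDegree := by
      have : (k : ℝ) ≤ 2 * G.minDegree := by linarith
      exact_mod_cast this
    obtain ⟨v, hv⟩ := G.exists_maximal_degree_vertex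
    refine upper (δ := (k + 1) / 2) (by omega)
      (fun u => le_trans (by omega) (G.minDegree_le_degree u)) v ?_ T hT hd
    have h4 : 2 * (((k + 1) / 2 : ℕ) : ℝ) ≤ k + 1 := by
      exact_mod_cast (by omega : 2 * ((k + 1) / 2) ≤ k + 1)
    have h5 : (N : ℝ) + 1 ≤ k := by exact_mod_cast hk
    have h6 : (0 : ℝ) ≤ N := Nat.cast_nonneg N
    have h7 : 32 ≤ (c - 1 / 4) * k := by
      rw [div_le_iff₀ hε] at hN
      nlinarith
    have h8 : (0 : ℝ) ≤ ((k + 1) / 2 : ℕ) := Nat.cast_nonneg _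
    have : (((k + 1) / 2 : ℕ) : ℝ) * ((k + 1) / 2 : ℕ) + 31 * ((k + 1) / 2 : ℕ) ≤ G.degree v := by
      rw [← hv]
      nlinarith [mul_le_mul_of_nonneg_right h7 (by linarith : (0 : ℝ) ≤ k)]
    exact_mod_cast this

/-- The instance `c = 1 / 8`, `α = 0`: the statement of Q1 fails. -/
theorem not_Q1 : ¬ (∀ (k : ℕ) (α : ℝ), 0 ≤ α → α ≤ 1 / 2 →
    ∀ (V : Type) [Fintype V] [Nonempty V] (G : SimpleGraph V) [DecidableRel G.Adj],
      (1 + α) * (k : ℝ) / 2 ≤ (G.minDegree : ℝ) → 2 * (1 - α) * (k : ℝ) ≤ (G.maxDegree : ℝ) →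
      ∀ T : SimpleGraph (Fin (k + 1)), T.IsTree → T.IsContained G) := fun h => by
  have : (1 / 4 : ℝ) ≤ 1 / 8 := result.1 ⟨16, fun k hk V _ _ G _ h1 h2 T hT _ => by
    have hk' : (16 : ℝ) ≤ k := by exact_mod_cast hk
    exact h k 0 le_rfl (by norm_num) V G (by linarith) (by nlinarith) T hT⟩
  norm_num at this

end Pool.Agent.Results.MP_a0dde7_co.QuarterSquare
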